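import Pool.Agent.H46.Goss.Gen
import Pool.Agent.H46.FF.Final

set_option autoImplicit false

namespace Pool.Agent.Results.MP_b811f7_nt.DegreeOne

open Pool.Agent.H46.Goss Pool.Agent.H46.FF WithZero

/-- If `∞` has degree one then `ζ_A(-m) ≠ 0` for every `m > 0` not divisible by `q - 1`. -/
theorem result (k K : Type) [Field k] [Finite k] [Field K] [Algebra k K] [Algebra (RatFunc k) K]
    [IsScalarTower k (RatFunc k) K] [FunctionField k K] (hk : algebraicClosure k K = ⊥)
    (w : Valuation K ℤᵐ⁰) (hw : Function.Surjective w) (hd : dInf k w = 1) (sgn : K →*₀ Res w)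
    (S : Set (Res w)) (hs : IsSgn w sgn) (hS : IsReps k sgn S) (m : ℕ) (m0 : 0 < m)
    (hm : ¬Nat.card k - 1 ∣ m) : zeta k sgn S m ≠ 0 := by
  have := isFF k K
  have := IsFF.pl k K
  exact ne_zero hw hk hd hs hS m0 hm

end Pool.Agent.Results.MP_b811f7_nt.DegreeOne
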