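import Pool.Agent.H46.Goss.Ex3

set_option autoImplicit false

namespace Pool.Agent.Results.MP_b811f7_nt.Disproof

open Pool.Agent.H46.Goss WithZero

/-- A global function field over `F_5`, a place `∞` of degree two and a sign normalisation with
`ζ_A(-14) = 0`, although `q - 1 = 4` does not divide `14`. -/
theorem result : ∃ (k K : Type) (_ : Field k) (_ : Finite k) (_ : Field K) (_ : Algebra k K)
    (_ : Algebra (RatFunc k) K) (_ : IsScalarTower k (RatFunc k) K) (_ : FunctionField k K)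
    (w : Valuation K ℤᵐ⁰) (sgn : K →*₀ Res w) (S : Set (Res w)),
    Nat.card k = 5 ∧ algebraicClosure k K = ⊥ ∧ Function.Surjective w ∧ dInf k w = 2 ∧
    IsSgn w sgn ∧ IsReps k sgn S ∧ 1 ∈ S ∧ (∀ i, (Pos k sgn S i).Finite) ∧
    (Function.support (powSum k sgn S 14)).Finite ∧ zeta k sgn S 14 = 0 := by
  obtain ⟨K, _, _, _, _, _, w, sgn, S, h⟩ := ex
  exact ⟨k5, K, _, inferInstance, _, _, _, ‹_›, ‹_›, w, sgn, S, Nat.card_zmod 5, h⟩

end Pool.Agent.Results.MP_b811f7_nt.Disproof
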